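import Pool.Agent.Helper78.DT.Goals2

/-!
Packet PA4 for MP_34c247_lc (parameters).
-/

set_option autoImplicit false

namespace Pool.Agent.Helper90.DT

open Pool.Agent.Helper78.DT

theorem pa4 (hT : TllStmt) (hN : NprStmt) : Pa4Stmt := by
  intro c a β
  refine ⟨2 ^ β * (6 * (c + 9) + 1) + 8, fun L hL => ?_⟩
  have hL8 : 8 ≤ L := by omega
  have hL1 : 1 ≤ L := by omega
  have hLr : (8 : ℝ) ≤ L := by exact_mod_cast hL8
  have hLp : (0 : ℝ) < L := by linarith
  have hK0 : 0 < KK c a β L := by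
    unfold KK
    positivity
  have hK : KK c a β L ≤ L ^ 2 := by
    unfold KK WW
    have h1 : 6 * ((c + 9) * L) / (tt a L + 1) ≤ 6 * ((c + 9) * L) := Nat.div_le_self _ _
    calc 2 ^ β * (6 * ((c + 9) * L) / (tt a L + 1) + 1)
        ≤ 2 ^ β * (6 * ((c + 9) * L) + L) := Nat.mul_le_mul_left _ (by omega)
      _ = (2 ^ β * (6 * (c + 9) + 1)) * L := by ring
      _ ≤ L * L := Nat.mul_le_mul_right _ (by omega)
      _ = L ^ 2 := (sq L).symm
  have hKr : (KK c a β L : ℝ) ≤ (L : ℝ) ^ 2 := by exact_mod_cast hK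
  have hKr0 : (0 : ℝ) ≤ KK c a β L := Nat.cast_nonneg _
  refine ⟨hK0, hK, ?_, ?_⟩
  · unfold δp
    calc (KK c a β L : ℝ) * (1 / (64 * (L : ℝ) ^ (c + 2)))
        ≤ (L : ℝ) ^ 2 * (1 / (64 * (L : ℝ) ^ (c + 2))) :=
          mul_le_mul_of_nonneg_right hKr (by positivity)
      _ = 1 / (64 * (L : ℝ) ^ c) := by
          rw [pow_add]
          field_simp
  · have hts : (tt a L * sp a L) ^ 2 ≤ L := by
      have h1 : tt a L ≤ 2 ^ tt a L := Nat.lt_two_pow_self.le
      have h2 : tt a L * sp a L ≤ 2 ^ (tt a L * (a + 2)) := by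
        unfold sp
        calc tt a L * 2 ^ (tt a L * (a + 1)) ≤ 2 ^ tt a L * 2 ^ (tt a L * (a + 1)) :=
              Nat.mul_le_mul_right _ h1
          _ = 2 ^ (tt a L * (a + 2)) := by
              rw [← pow_add]
              congr 1
              ring
      calc (tt a L * sp a L) ^ 2 ≤ (2 ^ (tt a L * (a + 2))) ^ 2 := Nat.pow_le_pow_left h2 2
        _ = 2 ^ (tt a L * (a + 2) * 2) := (pow_mul _ _ _).symm
        _ ≤ 2 ^ ((2 * a + 9) * tt a L) := Nat.pow_le_pow_right (by norm_num) (by nlinarith)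
        _ ≤ L := ((hT a).1 L hL1).1
    have htsr : (((tt a L * sp a L : ℕ) : ℝ)) ^ 2 ≤ L := by exact_mod_cast hts
    have hP : L ^ (c + 6) ≤ PP c L := (hN (L ^ (c + 6)) (by positivity)).2.1
    have hPr : (L : ℝ) ^ (c + 6) ≤ PP c L := by exact_mod_cast hP
    have hP0 : (0 : ℝ) < (L : ℝ) ^ (c + 6) := by positivity
    have h3 : ((tt a L * sp a L : ℕ) : ℝ) ^ 2 * L / PP c L ≤ L * L / (L : ℝ) ^ (c + 6) := by
      refine div_le_div₀ (by positivity) ?_ hP0 hPr
      exact mul_le_mul_of_nonneg_right htsr hLp.le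
    have h4 : 0 ≤ ((tt a L * sp a L : ℕ) : ℝ) ^ 2 * L / PP c L := by positivity
    calc (KK c a β L : ℝ) * (((tt a L * sp a L : ℕ) : ℝ) ^ 2 * L / PP c L)
        ≤ (L : ℝ) ^ 2 * (L * L / (L : ℝ) ^ (c + 6)) := mul_le_mul hKr h3 h4 (by positivity)
      _ = 1 / ((L : ℝ) ^ 2 * (L : ℝ) ^ c) := by
          rw [pow_add]
          field_simp
      _ ≤ 1 / (64 * (L : ℝ) ^ c) := by
          refine one_div_le_one_div_of_le (by positivity) ?_
          exact mul_le_mul_of_nonneg_right (by nlinarith) (by positivity)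

end Pool.Agent.Helper90.DT
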